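import Pool.Agent.N429.KS.AbsH

/-!
MP_0da4e0_ag: let `M i` be motives for absolute Hodge cycles over `k` whose Betti realizations for
one embedding `σ` of `k` are Hodge structures of K3 type (a finite family; if there are several: no
complex multiplication, no nonzero morphisms of Hodge structures between different ones, rank over
the endomorphism field not four). If the Hodge classes on `M i ⊗ M i` and on `(M i)^(⊗ m i)` are
absolute Hodge classes, `m i` the rank over the endomorphism field, then all Hodge classes on all
tensor powers of the sum of the `M i` are absolute Hodge classes: the Hodge realization is full on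
the tensor category generated by the `M i`.

Absolute Hodge classes are defined as in the problem, from the Betti realizations for all
embeddings of `k`, the de Rham and the étale realization and the comparison isomorphisms.

Proof: Zarhin's theorem for the direct sum, the first fundamental theorem for products of special
orthogonal groups and of general linear groups over `ℂ`, descent from `ℂ` to `ℚ`; the absolute
Hodge classes are closed under sums, products and renumbering of the factors.

Authors: helper429 (statement, plan, this form), helper814 (one structure, assembly), helper403 and
helper314 (families, assembly), helper568 (Zarhin's theorem for the family), helper362, helper73,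
helper427 (first fundamental theorems), helper454, helper492, and the helpers named in
`Pool.Agent.N429.KS`.
-/

set_option autoImplicit false

open Matrix

namespace Pool.Agent.Results.MP_0da4e0_ag.AbsoluteK3Type

open Pool.Agent.N429.KS

/-- Let `k` be a field of characteristic zero, `A` a commutative `ℚ`-algebra (the ring of finite
adeles), `σ : k → ℂ` an embedding, and `M i` realizations over `k` whose Hodge structures for `σ`
are those of K3 type structures `X i`; if there are several, there is no complex multiplication, no
nonzero morphism from `X i` to `X j` for `i ≠ j`, and the rank of `X i` over its endomorphism field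
is not four. Let `m i` be the rank of `X i` over its endomorphism field. If for each `i` the Hodge
classes on the second power of `M i` and, if `X i` has no complex multiplication, on the power
`m i` are absolute Hodge classes, then all Hodge classes on all powers of the sum of the `M i` are
absolute Hodge classes. -/
theorem result {k A : Type} [Field k] [CharZero k] [CommRing A] [Algebra ℚ A]
    (σ : k →+* ℂ) {I : Type} [Fintype I] [DecidableEq I] {B : I → Type} [∀ i, Fintype (B i)]
    [∀ i, DecidableEq (B i)] (M : ∀ i, Realizations k A (B i)) (X : ∀ i, K3Type (B i))
    (hM : ∀ i, (M i).h σ = (X i).h)
    (hXX : ∀ i j, i ≠ j → (X i).NonCM ∧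
      (∀ P : Matrix (B j) (B i) ℚ, cm P * (X i).h = (X j).h * cm P → P = 0) ∧
      Fintype.card (B i) ≠ 4 * Module.finrank ℚ (X i).endo)
    (m : I → ℕ) (hm : ∀ i, Fintype.card (B i) = Module.finrank ℚ (X i).endo * m i)
    (h2 : ∀ i (f : (Fin 2 → B i) → ℚ), (M i).IsHodge σ f → (M i).IsAbsolute σ f)
    (hdet : ∀ i, (X i).NonCM → ∀ f : (Fin (m i) → B i) → ℚ, (M i).IsHodge σ f →
      (M i).IsAbsolute σ f)
    {S : Type} [Fintype S] [DecidableEq S] (f : (S → Σ i, B i) → ℚ)
    (hf : (Realizations.sum M).IsHodge σ f) : (Realizations.sum M).IsAbsolute σ f :=
  absolute_all σ M X hM hXX m hm h2 hdet f hf

end Pool.Agent.Results.MP_0da4e0_ag.AbsoluteK3Type
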