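import Pool.Agent.N174.BPN.Mor

/-!
# The Hodge realization of the motives generated by one motive: finitely many tensor powers suffice

Let `k` be an algebraically closed field, `σ` an embedding of `k` into the complex numbers, and `M` an
arbitrary motive for absolute Hodge cycles over `k`, for instance a direct factor of the motive of a
variety, defined by an absolute Hodge projector. Let `V = H_σ(M)`, let `t` be the transcendental rank
of `M`, that is `dim V` minus the dimension of the space spanned by the Hodge classes in `V(j)`,
`j ∈ ℤ`, and let `w` be a bound of `|p - q|` for the Hodge types `(p, q)` of `V`. Let

* `N = max(4, t)` if the centre of the algebra of the endomorphisms of the Hodge structure `V`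
  consists of self-adjoint endomorphisms (it is a product of totally real fields),
* `N = max(4, t ^ 2 / 4)` if the Hodge group of `V` is semisimple,
* `N = max(4, (w t) ^ t)` in general.

**If all Hodge classes in `H_σ(M)^(⊗ n)(j)`, `n ≤ N`, `j ∈ ℤ`, are absolute Hodge, then the Hodge
realization is fully faithful on the tannakian category generated by `M`**:

* all Hodge classes in `H_σ(M)^(⊗ n)(j)` are absolute Hodge, for all `n` and `j`;
* all morphisms of Hodge structures `H_σ(M)^(⊗ a)(i) ⟶ H_σ(M)^(⊗ b)(j)` are realizations of morphisms
  of motives;
* all Hodge classes of all motives `M'` which are direct summands of finite sums of the motives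
  `M^(⊗ n)(j)` are absolute Hodge. As the category is semisimple and the dual of a pure motive is a
  Tate twist of the motive by the polarisation, all motives of the tannakian category generated by `M`
  have this form, and also their internal Hom objects.

So fullness on the category generated by `M`, which is an assertion on infinitely many tensor
constructions, is decided by an explicit finite number of them, which depends only on the Hodge
structure `V`. For several motives take their direct sum. For the motives of whole varieties
(`M = h(X)`) and the pairs of embeddings this is the result `MP_c77f96_ag.BoundedPower` of helper211;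
the point here is that `M` is arbitrary: nothing is assumed about the rest of the cohomology of the
varieties on which `M` lives, `M` need not contain the unit object, and `N` depends on `M` only.

In the Lean statement `C n` is the space of the absolute Hodge classes in `V^(⊗ n)` (of all Tate
twists) and `ψ` is a polarisation of `M`. Only the properties in `IsTensorFamily` are used: the
absolute Hodge classes are Hodge classes and are stable under tensor products, permutations of the
factors (the realization is a tensor functor) and the contraction with `ψ`.

The proof passes from `M` to `1 ⊕ M`, which has the same transcendental rank, and applies the theorem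
of the files `N996.FP` on the tensors of polarised Hodge structures with a distinguished Hodge class.
-/

namespace Pool.Agent.Results.MP_0da4e0_ag.BoundedPowers

open Pool.Agent.N174.BPN

/-- **The bounded power theorem for motives for absolute Hodge cycles.** -/
theorem result {ι : Type} [Fintype ι] [DecidableEq ι] (V : HodgeStr ι) (ψ : Matrix ι ι ℚ)
    (hψ : V.IsPolarisation ψ) (C : ∀ n : ℕ, Submodule ℚ ((Fin n → ι) → ℚ))
    (hC : IsTensorFamily V ψ C) (N : ℕ) (hN : V.IsExponent ψ N)
    (h : ∀ n ≤ N, V.Hdg (Fin n) ≤ C n) :
    (∀ n, V.Hdg (Fin n) ≤ C n) ∧
    (∀ (a b : ℕ) (f : Matrix (Fin b → ι) (Fin a → ι) ℚ), IsHodgeMor V f → IsMotMor ψ C f) ∧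
    ∀ {ι' : Type} [Fintype ι'] [DecidableEq ι'] (W : HodgeStr ι') (D : Submodule ℚ (ι' → ℚ)),
      FromPowers V C W D → W.hdg ≤ D :=
  ⟨core hψ hC hN h, fun _ _ f hf => full hψ (core hψ hC hN h) f hf,
    fun _ _ hW => fromPowers hW (core hψ hC hN h)⟩

end Pool.Agent.Results.MP_0da4e0_ag.BoundedPowers
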