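import Pool.Agent.N179.PC.Fin2

/-!
# Full faithfulness of the Hodge realization on the tensor category generated by an arbitrary variety and an independent family

Let `W` be the cohomology of the smooth projective complex varieties with coefficients in an
algebraically closed field `K` (isomorphic to `ℂ`): Betti cohomology `H(X, ℚ) ⊗ K`, which is also the de
Rham cohomology (`K = ℂ`) and the `ℓ`-adic cohomology (`K` an algebraic closure of `ℚ_ℓ`). Let `Γ` be the
Mumford–Tate group: the group of the `K`-valued points of the fundamental group of the category of the
polarisable rational Hodge structures, and `χ` its action on the Tate twist `H^2(ℙ^1)`. The Hodge
classes in `H^(2 j)(X)` are rational, they are multiplied by `χ(g)^j`, and all classes of degree `2 j`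
with this property are `K`-combinations of Hodge classes; as `Γ` is connected, the same is true for
subgroups of finite index (`IsHodgeTheory`).

A class (or a vector of a representation) is *semi-invariant* if `Γ` multiplies it by a character. Let
`V_i`, `i ∈ ι`, be any family of Hodge structures such that the representations `End V_i` are
semisimple (always true for polarisable `V_i`), and which are pairwise independent: for `i ≠ j` every
equivariant linear map `End V_i → End V_j` has its values in the span of the semi-invariant
vectors. For instance `V_i = H^1(A_i)` for pairwise not isogenous elliptic curves without complex
multiplication, for pairwise not isogenous abelian varieties `A_i` with `End A_i = ℤ` and of odd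
dimension, for very general members of families of abelian varieties; or transcendental lattices of K3
surfaces without real or complex multiplication, pairwise not isomorphic (up to a twist) and of rank
different from `4`; and one can mix these families.

Let `P_a` be varieties with cohomology generated by `V_(i_a)`, for instance arbitrary powers of `A_i` or
of the K3 surface, such that the semi-invariant classes on `P_a` are combinations of Hodge classes
(`IsFactor`). For abelian varieties and for powers of K3 surfaces all Hodge classes are absolute Hodge
classes, by a theorem of Deligne.

Let `S` be the system of the absolute Hodge classes. The Hodge realization is full on the tensor
category generated by the motives of the varieties in a set `𝒵` which is stable under products if and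
only if all Hodge classes on the varieties in `𝒵` are in `S` (the morphisms between the motives
`(X, p, m)` and `(Y, q, n)` are given by classes on `X × Y`).

**Theorem.** Let `Z` be an **arbitrary** smooth projective complex variety. There is a finite set
`E = E(Z)` of indices, with at most `(b - b') / 2` elements, where `b` is the sum of the Betti numbers of
`Z` and `b' ≥ 1` is the dimension of the span of the semi-invariant classes (among them the Hodge
classes), such that for all products `Y = P_1 × ... × P_n × Z'` with pairwise different indices
`i_a ∉ E`, and all varieties `Z'` generated by the cohomology of `Z` (for instance `Z' = Z`, the powers
of `Z`):

**the Hodge realization is full for the motives of all these varieties `Y` (for all `Z'` and all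
`P_a`) if and only if it is full for the motives of the varieties `Z'` generated by the cohomology of
`Z`** (the set of these `Z'` contains `Z` and is stable under products).

So the Hodge realization of motives for absolute Hodge cycles is full on the tensor category
generated by the motive of `Z` if and only if it is full on the tensor category generated by the
motives of `Z` and of all members of the family with at most `(b - b') / 2` exceptions.

The exceptional members may be moved to the base, as `E(V_j) ⊆ {j}`: in every product of `Z` with powers
of members of the family all members but at most `(b - b') / 2` can be split off.

The proof: by the Künneth formula for semi-invariant classes of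
`MP_021685_ag.IndependenceFromSquares`, applied to the Mumford–Tate group, the Hodge classes on
`P × Z'` have slices on `P` which are combinations of Hodge classes, so they are combinations of
products of Hodge classes on `P` and on `Z'`; one goes back by push-forward.
-/

set_option autoImplicit false

universe u

namespace Pool.Agent.Results.MP_0da4e0_ag.IndependentFamilies

open Pool.Agent.H914 Pool.Agent.N179.GR.S Pool.Agent.N179.PC

/-- **Full faithfulness of the Hodge realization, independent families, and an arbitrary variety.** -/
theorem result {k : Type u} [Field k] {𝒱 : VarClass k} {ops : CycleOps 𝒱}
    {W : WeilCohomology.{u, 0} ops} (hK : Nonempty (W.K ≃+* ℂ)) {Γ : Type} [Group Γ]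
    {T : HodgeData W Γ} (hT : IsHodgeTheory T) {ι : Type} {V : ι → GRep W.K Γ} (hV : Family V) :
    ∃ E : GRep W.K Γ → Set ι, Bounds T V E ∧ CategoryReduces T V E :=
  (final hK hT hV).imp fun _ h => ⟨h.bounds, h.category⟩

end Pool.Agent.Results.MP_0da4e0_ag.IndependentFamilies
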